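import Mathlib
import Pool.Agent.W313.HB.Stm5
import Pool.Agent.W959.HB2.CoreA

/-!
Project HB, part COREG.
-/

set_option autoImplicit false
set_option linter.all false

namespace Pool.Agent.W578.HB

open Finset Polynomial
open Pool.Agent.W313.HB
open Pool.Agent.W313.BMX (Splits)
open Pool.Agent.W959.HB2 (spl_left spl_right sq_of_jac)

open Classical in
theorem coreg_ (h1 : S_ANAG) (h2 : S_HM) (h3 : S_PF) : S_COREG := by
  intro PA PB PD hG hl
  obtain ⟨z0, hz0⟩ := h1 PA PB PD hG hl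
  refine ⟨max 2 z0, fun N hN hpN T0 ε hε => ?_⟩
  obtain ⟨A0, hA0⟩ := hz0 N hN (fun p hp hpz => hpN p hp (hpz.trans (le_max_right _ _))) T0 ε hε
  refine ⟨A0, fun A hA => le_trans ?_ (hA0 A hA)⟩
  have h2N : 2 ∣ N := hpN 2 Nat.prime_two (le_max_left _ _)
  norm_cast
  refine card_le_card fun a ha => ?_
  rw [mem_filter] at ha ⊢
  obtain ⟨haI, hsq, t0, hloc, hno⟩ := ha
  refine ⟨haI, hsq, t0, ?_⟩
  rintro ⟨ps, t, hps, hpsN, hNt, hT0, hc⟩
  apply hno
  obtain ⟨c1, c2, c3, c4, c5, c6⟩ := hc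
  have ha0 : (a : ℤ) ≠ 0 := by
    have := (Finset.mem_Icc.1 haI).1
    omega
  have hne : (PA * (PB ^ 2 - PA * PD)).eval t ≠ 0 := by
    rw [eval_mul]
    exact mul_ne_zero c1 c2
  have hα : (a : ℤ) * PA.eval t ≠ 0 := mul_ne_zero ha0 c1
  have hapos : (0 : ℤ) < a := by
    have := (Finset.mem_Icc.1 haI).1
    omega
  have hR : Splits ((((a : ℤ) * PA.eval t : ℤ)) : ℝ)
      ((((PB ^ 2 - PA * PD).eval t : ℤ)) : ℝ) := by
    rcases c3 with h | h
    · refine spl_left ?_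
      have h4 : (0 : ℝ) ≤ (((a : ℤ) * PA.eval t : ℤ) : ℝ) := by
        exact_mod_cast (mul_pos hapos h).le
      exact ⟨√_, (Real.mul_self_sqrt h4).symm⟩
    · refine spl_right ?_
      have h4 : (0 : ℝ) ≤ (((PB ^ 2 - PA * PD).eval t : ℤ) : ℝ) := by
        exact_mod_cast h.le
      exact ⟨√_, (Real.mul_self_sqrt h4).symm⟩
  have hΔ : (PB ^ 2 - PA * PD).eval t = PB.eval t ^ 2 - PA.eval t * PD.eval t := by
    rw [eval_sub, eval_pow, eval_mul]
  have hp : ∀ (p : ℕ) [Fact p.Prime], p ≠ ps →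
      Splits ((((a : ℤ) * PA.eval t : ℤ)) : ℚ_[p])
        ((((PB ^ 2 - PA * PD).eval t : ℤ)) : ℚ_[p]) := by
    intro p hpf hpps
    by_cases hpN' : p ∣ N
    · exact hloc p hpN' t hNt hne
    have hp2 : p ≠ 2 := fun h => hpN' (h ▸ h2N)
    by_cases hpa : p ∣ a
    · exact spl_right (sq_of_jac p hp2 _ (c4 p hpf.out hpN' hpa hpps))
    · by_cases hqD : (p : ℤ) ∣ (PB ^ 2 - PA * PD).eval t
      · by_cases hqA : (p : ℤ) ∣ PA.eval t
        · obtain ⟨s, hs⟩ := sq_of_jac p hp2 _ (c6 p hpf.out hpN' hpa hqD hqA)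
          refine ⟨s, ((a : ℤ) : ℚ_[p]), ((a : ℤ) : ℚ_[p]) * ((PB.eval t : ℤ) : ℚ_[p]),
            Or.inr (Or.inl ?_), ?_⟩
          · exact_mod_cast ha0
          · rw [hΔ]
            push_cast at hs ⊢
            linear_combination ((a : ℚ_[p]) * ((PA.eval t : ℤ) : ℚ_[p])) * hs
        · exact spl_left (sq_of_jac p hp2 _ (c5 p hpf.out hpN' hpa hqD hqA))
      · by_cases hqA : (p : ℤ) ∣ PA.eval t
        · apply spl_right
          apply sq_of_jac p hp2
          rw [← jacobiSym.legendreSym.to_jacobiSym]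
          have h5 : (((PB ^ 2 - PA * PD).eval t : ℤ) : ZMod p) ≠ 0 := fun h =>
            hqD ((ZMod.intCast_zmod_eq_zero_iff_dvd _ p).1 h)
          rw [legendreSym.eq_one_iff p h5]
          refine ⟨((PB.eval t : ℤ) : ZMod p), ?_⟩
          have h6 : ((PA.eval t : ℤ) : ZMod p) = 0 :=
            (ZMod.intCast_zmod_eq_zero_iff_dvd _ p).2 hqA
          rw [hΔ]
          push_cast
          rw [h6]; ring
        · have hpa' : ¬ (p : ℤ) ∣ (a : ℤ) := fun h => hpa (by exact_mod_cast h)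
          exact Pool.Agent.W335.BMX.odd2 p hp2 _ _
            (fun h => (Int.Prime.dvd_mul' hpf.out h).elim hpa' hqA) hqD
  refine ⟨t, hNt, hT0, hne, h2 _ _ hα c2 hR fun p hpf => ?_⟩
  by_cases h : p = ps
  · subst h
    exact h3 _ _ hα c2 p hR hp
  · exact hp p h

end Pool.Agent.W578.HB
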